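import Pool.Agent.Run7.h718.HC.Clo
import Pool.Agent.Run7.h621.MP.One
import Pool.Agent.Run7.h621.NG.Final
import Pool.Agent.TH145.GC.Main

/-!
Entire curves in nearly generic hypersurfaces of degree at least `2 n + 2`.
-/

set_option autoImplicit false
set_option linter.unusedSectionVars false

open FF MvPolynomial Pool.Agent.W602.GT Pool.Agent.TH143.GT Pool.Agent.W603.BPR Pool.Agent.W603.BP

namespace Pool.Agent.Run7.h718.HC

/-- The monomials of degree `d` in `n + 2` variables. -/
abbrev Mo (n d : ℕ) : Type := {α : Fin (n + 2) →₀ ℕ // α.degree = d}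

theorem finite_mo (n d : ℕ) : Finite (Mo n d) := by
  have hb : ∀ (α : Mo n d) (i : Fin (n + 2)), α.1 i < d + 1 := by
    intro α i
    have h1 := Finsupp.le_degree i α.1
    rw [α.2] at h1
    omega
  refine Finite.of_injective (β := Fin (n + 2) → Fin (d + 1)) (fun α i => ⟨α.1 i, hb α i⟩) ?_
  intro α β h
  apply Subtype.ext
  ext i
  exact congrArg Fin.val (congrFun h i)

/-- Entire curves in nearly generic hypersurfaces are constant, or their Zariski closures are of
general type. -/
theorem const_of_generic {k : Type} [Field k] [Algebra k ℂ] {n d s : ℕ} (hd : 2 * n + 2 + s ≤ d)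
    {F : MvPolynomial (Fin (n + 2)) ℂ} (hF : F.IsHomogeneous d) {α0 : Fin (n + 2) →₀ ℕ}
    (h0 : coeff α0 F ≠ 0)
    (hgen : (Nat.card {α : Fin (n + 2) →₀ ℕ // α.degree = d ∧ α ≠ α0} : Cardinal) ≤
      Algebra.trdeg k (IntermediateField.adjoin k
        (Set.range fun α : Fin (n + 2) →₀ ℕ => coeff α F / coeff α0 F)) + s)
    {f : ℂ → Fin (n + 2) → ℂ} (hf : Differentiable ℂ f) (hfne : ∀ z, f z ≠ 0)
    (hfF : ∀ z, eval (f z) F = 0)
    (hng : ∀ (p : Ideal (MvPolynomial (Fin (n + 1 + 1)) ℂ)) (K : Type) [Field K] [Algebra ℂ K]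
      (w : ℕ) (y : Fin (n + 1 + 1) → K), FunField p 1 K w y → EntireCurve p 1 f →
        ZDense p f Set.univ → ¬ GeneralType ℂ K w) :
    ∀ z, ∃ c : ℂ, f z = c • f 0 := by
  classical
  intro z
  by_contra hc
  push Not at hc
  obtain ⟨p, K, i1, i2, w, y, hy, hcu, hde, hgp⟩ := exists_funField (n := n + 1) hf hfne ⟨z, 0, hc⟩
  refine hng p K w y hy hcu hde ?_
  obtain ⟨hfd, -, -, -⟩ := ent_data hcu
  have hw0 : 0 < w := Pool.Agent.Run7.h718.ND.dim_pos hgp hfd hcu.2.2 hfne
  have hα0 : α0.degree = d := by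
    rw [Finsupp.degree_eq_weight_one]
    exact hF h0
  have hfin := finite_mo n d
  let _ : Fintype (Mo n d) := Fintype.ofFinite _
  let J : Unit → Type := fun _ => Mo n d
  let _ : ∀ a, Fintype (J a) := fun _ => inferInstanceAs (Fintype (Mo n d))
  let P : ∀ a, J a → MvPolynomial (Fin (n + 1 + 1)) k := fun _ j => monomial j.1 1
  let j0 : ∀ a, J a := fun _ => ⟨α0, hα0⟩
  let t : ∀ a, J a → ℂ := fun _ j => coeff j.1 F
  have hP : ∀ a j, (P a j).IsHomogeneous ((fun _ : Unit => d) a) := by
    intro a j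
    exact isHomogeneous_monomial 1 j.2
  obtain ⟨c0, hc0⟩ := Function.ne_iff.1 hgp.ne
  have hSt : ∀ (a : Unit) (i : Fin (n + 1 + 1)) (e : ℕ), e ≤ (fun _ : Unit => d) a →
      ∃ j, P a j = X c0 ^ ((fun _ : Unit => d) a - e) * X i ^ e := by
    intro a i e he
    refine ⟨⟨Finsupp.single c0 (d - e) + Finsupp.single i e, ?_⟩, ?_⟩
    · rw [map_add, Finsupp.degree_single, Finsupp.degree_single]
      exact Nat.sub_add_cancel he
    · change monomial (Finsupp.single c0 (d - e) + Finsupp.single i e) (1 : k) = _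
      rw [X_pow_eq_monomial, X_pow_eq_monomial, monomial_mul, one_mul]
  have hF1 : ∀ a : Unit, (fun _ : Unit => F) a =
      ∑ j, MvPolynomial.C (t a j) * map (algebraMap k ℂ) (P a j) := by
    intro a
    change F = ∑ j : Mo n d, MvPolynomial.C (coeff j.1 F) * map (algebraMap k ℂ) (monomial j.1 1)
    ext β
    rw [coeff_sum]
    simp only [map_monomial, map_one, C_mul_monomial, mul_one, coeff_monomial]
    by_cases hβ : β.degree = d
    · rw [Finset.sum_eq_single (⟨β, hβ⟩ : Mo n d)]
      · rw [if_pos rfl]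
      · intro j _ hj
        rw [if_neg]
        intro h
        exact hj (Subtype.ext h)
      · intro h
        exact absurd (Finset.mem_univ _) h
    · rw [Finset.sum_eq_zero]
      · by_contra hne
        apply hβ
        rw [Finsupp.degree_eq_weight_one]
        exact hF hne
      · intro j _
        rw [if_neg]
        intro h
        exact hβ (h ▸ j.2)
  -- the number of the parameters
  have hcard : Nat.card ((a : Unit) × {j : J a // j ≠ j0 a}) =
      Nat.card {α : Fin (n + 2) →₀ ℕ // α.degree = d ∧ α ≠ α0} := by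
    refine Nat.card_congr ⟨fun p => ⟨p.2.1.1, p.2.1.2, fun h => p.2.2 (Subtype.ext h)⟩,
      fun α => ⟨(), ⟨⟨α.1, α.2.1⟩, fun h => α.2.2 (congrArg Subtype.val h)⟩⟩, fun p => rfl,
      fun α => rfl⟩
  have hadj : IntermediateField.adjoin k
        (Set.range fun α : Fin (n + 2) →₀ ℕ => coeff α F / coeff α0 F) =
      IntermediateField.adjoin k (Set.range fun p : (a : Unit) × {j : J a // j ≠ j0 a} =>
        t p.1 p.2.1 / t p.1 (j0 p.1)) := by
    apply le_antisymm
    · rw [IntermediateField.adjoin_le_iff]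
      rintro _ ⟨α, rfl⟩
      change coeff α F / coeff α0 F ∈ _
      by_cases h1 : α = α0
      · rw [h1, div_self h0]
        exact one_mem _
      by_cases h2 : α.degree = d
      · exact IntermediateField.subset_adjoin _ _
          ⟨⟨(), ⟨⟨α, h2⟩, fun h => h1 (congrArg Subtype.val h)⟩⟩, rfl⟩
      · have h3 : coeff α F = 0 := by
          by_contra hne
          apply h2
          rw [Finsupp.degree_eq_weight_one]
          exact hF hne
        rw [h3, zero_div]
        exact zero_mem _
    · rw [IntermediateField.adjoin_le_iff]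
      rintro _ ⟨p, rfl⟩
      exact IntermediateField.subset_adjoin _ _ ⟨p.2.1.1, rfl⟩
  rw [hadj, ← hcard] at hgen
  obtain ⟨B, hB, hBs⟩ := Pool.Agent.Run7.h621.NG.exists_indep _ hgen
  have hyF : aeval y F = 0 := by
    have h1 := (hgp.rel F ⟨d, hF⟩).2 fun z _ => hfF z
    exact h1
  have hlog := Pool.Agent.Run7.h621.MP.log_one (k0 := k) (A := Unit) (n := n + 1) (J := J) (P := P)
    (j0 := j0) (K := ℂ) (L := K) (dg := fun _ => d) hP Finset.univ (V := ∅) (by simp)
    (m := n + 1) (s := s) (w := w) (Pool.Agent.TH145.GC.dimLE_univ k (n + 1)) (c0 := c0) hSt hw0 t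
    (fun _ => h0) hBs hB (F := fun _ => F) hF1 hgp.dim (x := y) hc0 (by
      simp only [Finset.univ_unique, Finset.sum_const, Finset.card_singleton, smul_eq_mul]
      omega) (by
      rw [hgp.gen]
      exact ⟨fun x => isAlgebraic_algebraMap (⟨x, IntermediateField.mem_top⟩ :
        (⊤ : IntermediateField ℂ K))⟩) (by simp) (fun _ _ => hyF) (fun a ha => absurd (Finset.mem_univ a) ha)
  obtain ⟨h1, N, hN, ω, h2, h3, h4, h5⟩ := hlog
  refine ⟨h1, N, hN, ω, h2, fun P hP j => ?_, h5⟩
  refine h4 P hP ?_ j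
  rintro ⟨b, hb, -⟩
  exact hb (Finset.mem_univ b)

end Pool.Agent.Run7.h718.HC
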