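import Pool.Agent.Run7.h718.SP.Thm

/-!
The Zariski closure of an entire curve.
-/

set_option autoImplicit false
set_option linter.unusedSectionVars false

open FF MvPolynomial Pool.Agent.W602.GT Pool.Agent.TH143.GT Pool.Agent.W603.BPR Pool.Agent.W603.BP
open Pool.Agent.W603.GR

namespace Pool.Agent.Run7.h718.HC

/-- the Zariski closure of a nonconstant entire curve -/
theorem exists_funField {n : ℕ} {f : ℂ → Fin (n + 1) → ℂ} (hf : Differentiable ℂ f)
    (h0 : ∀ z, f z ≠ 0) (hnc : ∃ z w, ∀ c : ℂ, f z ≠ c • f w) :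
    ∃ (p : Ideal (MvPolynomial (Fin (n + 1)) ℂ)) (K : Type) (_ : Field K) (_ : Algebra ℂ K) (w : ℕ)
      (y : Fin (n + 1) → K), FunField p 1 K w y ∧ EntireCurve p 1 f ∧ ZDense p f Set.univ ∧
        GenPt f Set.univ K w y := by
  have hfa : ∀ j, AnalyticOnNhd ℂ (fun w => f w j) Set.univ := fun j z _ =>
    Differentiable.analyticAt (fun z => (differentiableAt_pi.1 (hf z)) j) z
  obtain ⟨j0, hj0⟩ := Function.ne_iff.1 (h0 0)
  obtain ⟨K, i1, i2, w, y, h1, h2, h3, h4, h5⟩ := exists_closure f isPreconnected_univ hfa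
    ⟨0, Set.mem_univ _, hj0⟩
  have hy : GenPt f Set.univ K w y := ⟨h1, h2, h3, h4⟩
  obtain ⟨p, hp⟩ : ∃ p : Ideal (MvPolynomial (Fin (n + 1)) ℂ),
      p = Ideal.span {H | IsForm H ∧ ∀ z, eval (f z) H = 0} := ⟨_, rfl⟩
  have hpv : ∀ H ∈ p, ∀ z, eval (f z) H = 0 := by
    intro H hH z
    have hle : p ≤ RingHom.ker (eval (f z)) := by
      rw [hp, Ideal.span_le]
      intro G hG
      exact hG.2 z
    exact hle hH
  have hpy : ∀ H ∈ p, W602.GT.val y H = 0 := by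
    intro H hH
    have hle : p ≤ RingHom.ker (aeval y : MvPolynomial (Fin (n + 1)) ℂ →ₐ[ℂ] K) := by
      rw [hp, Ideal.span_le]
      intro G hG
      exact (hy.rel G hG.1).2 fun z _ => hG.2 z
    exact hle hH
  refine ⟨p, K, i1, i2, w, y, ⟨⟨h1, hpy, ?_, h2, h3⟩, ?_⟩, ⟨hf, fun z => ⟨h0 z, fun H hH => hpv H hH z,
    ?_⟩, hnc⟩, ?_, hy⟩
  · unfold W602.GT.val
    rw [map_one]
    exact one_ne_zero
  · intro H hH hv
    rw [hp]
    exact Ideal.subset_span ⟨hH, fun z => (hy.rel H hH).1 hv z (Set.mem_univ z)⟩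
  · rw [map_one]
    exact one_ne_zero
  · intro H hH hv
    rw [hp]
    exact Ideal.subset_span ⟨hH, fun z => hv z (Set.mem_univ z)⟩

end Pool.Agent.Run7.h718.HC
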